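import Pool.Agent.Helper37_CAP.Stmts

/-!
# Squad CAP, module PLA: coordinates from the cyclic group
-/

set_option autoImplicit false

open Finset

namespace Pool.Agent.CAP.H39

open Pool.Agent.CAP

theorem pla : PLA := by
  classical
  intro P M σ o hM hcard hσo htr
  haveI : NeZero M := ⟨by omega⟩
  have hfin : Finite P := by
    apply Nat.finite_of_card_ne_zero
    rw [hcard]
    omega
  obtain ⟨x0, hx0⟩ : ∃ x0 : P, x0 ≠ o := by
    by_contra h
    push Not at h
    have h1 : (Set.univ : Set P) = {o} := by
      ext x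
      simp [h x]
    have h2 := congrArg Set.ncard h1
    rw [Set.ncard_univ, hcard, Set.ncard_singleton] at h2
    omega
  set m := Function.minimalPeriod σ x0 with hm
  have hmpos : 0 < m := by
    rw [hm, Function.minimalPeriod_pos_iff_mem_periodicPts]
    exact σ.injective.mem_periodicPts x0
  have hit : ∀ (j : ℕ) (x : P), (σ ^ j) x = σ^[j] x := fun j x => by
    rw [Equiv.Perm.iterate_eq_pow]
  have hoj : ∀ j : ℕ, σ^[j] o = o := by
    intro j
    induction j with
    | zero => rfl
    | succ j ih => rw [Function.iterate_succ_apply', ih, hσo]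
  have hne : ∀ j : ℕ, σ^[j] x0 ≠ o := by
    intro j h
    apply hx0
    apply (σ.injective.iterate j)
    rw [h, hoj]
  -- the orbit
  have horb : {x : P | x ≠ o} = (fun j : ℕ => σ^[j] x0) '' Set.Iio m := by
    ext x
    simp only [Set.mem_ofPred_eq, Set.mem_image, Set.mem_Iio]
    constructor
    · intro hx
      obtain ⟨i, hi⟩ := htr x0 x hx0 hx
      refine ⟨i % m, Nat.mod_lt _ hmpos, ?_⟩
      rw [hm, Function.iterate_mod_minimalPeriod_eq, ← hi, hit]
    · rintro ⟨j, -, rfl⟩
      exact hne j
  have hmM : m = M := by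
    have h1 : ({x : P | x ≠ o}).ncard = m := by
      rw [horb, Set.InjOn.ncard_image (by
        rw [hm]
        exact Function.iterate_injOn_Iio_minimalPeriod)]
      rw [← Nat.card_coe_set_eq]
      simp
    have h2 : (insert o {x : P | x ≠ o}) = Set.univ := by
      ext x
      simp only [Set.mem_insert_iff, Set.mem_ofPred_eq, Set.mem_univ, iff_true]
      exact em _
    have h3 := congrArg Set.ncard h2
    rw [Set.ncard_insert_of_notMem (by simp) (Set.toFinite _), h1, Set.ncard_univ, hcard] at h3
    omega
  refine ⟨fun i => σ^[i.val] x0, ?_, ?_, ?_⟩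
  · intro i j hij
    have h1 : (i.val) ∈ Set.Iio m := by
      rw [hmM]
      exact ZMod.val_lt i
    have h2 : (j.val) ∈ Set.Iio m := by
      rw [hmM]
      exact ZMod.val_lt j
    have h3 : i.val = j.val := by
      rw [hm] at h1 h2
      exact Function.iterate_injOn_Iio_minimalPeriod h1 h2 hij
    exact ZMod.val_injective M h3
  · intro x
    constructor
    · intro hx
      have h1 : x ∈ {x : P | x ≠ o} := hx
      rw [horb] at h1
      obtain ⟨j, hj, rfl⟩ := h1
      refine ⟨(j : ZMod M), ?_⟩
      rw [hmM] at hj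
      simp only
      rw [ZMod.val_natCast_of_lt hj]
    · rintro ⟨i, rfl⟩
      exact hne _
  · intro i
    simp only
    have h1 : σ (σ^[i.val] x0) = σ^[i.val + 1] x0 := by
      rw [Function.iterate_succ_apply']
    rw [h1, ZMod.val_add, ZMod.val_one_eq_one_mod, Nat.add_mod_mod]
    have h2 := Function.iterate_mod_minimalPeriod_eq (f := σ) (x := x0) (n := i.val + 1)
    rw [← hm, hmM] at h2
    exact h2

end Pool.Agent.CAP.H39
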