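import Pool.Agent.Helper37_CAP.Stmts

/-!
# Squad CAP, module PLN: from the coordinates to the difference set
-/

set_option autoImplicit false

open Finset

namespace Pool.Agent.CAP.H39

open Pool.Agent.CAP

theorem pln : PLN := by
  classical
  intro k P L σ o f hP hσ hσo hf hfo hfs
  have hk : 1 ≤ k := by
    have := hP.two_le
    omega
  haveI : NeZero (k * (k + 2)) := ⟨by positivity⟩
  haveI : NeZero (k + 2) := ⟨by omega⟩
  have hfin : Finite P := by
    apply Nat.finite_of_card_ne_zero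
    rw [hP.card]
    positivity
  have hsf : ∀ S : Set P, S.Finite := fun S => Set.toFinite S
  have hfne : ∀ i, f i ≠ o := fun i => (hfo (f i)).2 ⟨i, rfl⟩
  -- powers of the collineation
  have hpow : ∀ (j : ℕ) (i : ZMod (k * (k + 2))), f (i + j) = (σ ^ j) (f i) := by
    intro j
    induction j with
    | zero => intro i; simp
    | succ j ih =>
      intro i
      rw [Nat.cast_succ, ← add_assoc, hfs, ih, pow_succ', Equiv.Perm.mul_apply]
  have hadd : ∀ i g : ZMod (k * (k + 2)), f (i + g) = (σ ^ g.val) (f i) := by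
    intro i g
    have := hpow g.val i
    rwa [ZMod.natCast_zmod_val] at this
  have hLp : ∀ (j : ℕ) (S : Set P), S ∈ L → ⇑(σ ^ j) '' S ∈ L := by
    intro j
    induction j with
    | zero => intro S hS; simpa using hS
    | succ j ih =>
      intro S hS
      have h1 : ⇑(σ ^ (j + 1)) '' S = ⇑σ '' (⇑(σ ^ j) '' S) := by
        rw [pow_succ', Equiv.Perm.coe_mul, Set.image_comp]
      rw [h1]
      exact (hσ _).1 (ih S hS)
  have hop : ∀ j : ℕ, (σ ^ j) o = o := by
    intro j
    induction j with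
    | zero => simp
    | succ j ih => rw [pow_succ', Equiv.Perm.mul_apply, ih, hσo]
  have huniq : ∀ {x y : P} {S T : Set P}, x ≠ y → S ∈ L → T ∈ L → x ∈ S → y ∈ S → x ∈ T →
      y ∈ T → S = T := by
    intro x y S T hxy hS hT h1 h2 h3 h4
    obtain ⟨U, _, hU⟩ := hP.join x y hxy
    rw [hU S ⟨hS, h1, h2⟩, hU T ⟨hT, h3, h4⟩]
  -- a line which misses `o`
  obtain ⟨S, hSL, hoS⟩ : ∃ S ∈ L, o ∉ S := by
    obtain ⟨l, ⟨hl, hol, hxl⟩, -⟩ := hP.join o (f 0) (hfne 0).symm
    obtain ⟨y, hy⟩ : ∃ y, y ∉ l := by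
      by_contra h
      push Not at h
      have h1 : l = Set.univ := Set.eq_univ_of_forall h
      have h2 := hP.line l hl
      rw [h1, Set.ncard_univ, hP.card] at h2
      nlinarith
    have hxy : f 0 ≠ y := fun h => hy (h ▸ hxl)
    obtain ⟨S, ⟨hS, h1, h2⟩, -⟩ := hP.join (f 0) y hxy
    refine ⟨S, hS, fun h3 => hy ?_⟩
    rw [huniq (hfne 0).symm hl hS hol hxl h3 h1]
    exact h2
  set D : Finset (ZMod (k * (k + 2))) := Finset.univ.filter fun i => f i ∈ S with hD
  have hmD : ∀ i, i ∈ D ↔ f i ∈ S := fun i => by simp [hD]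
  have hDc : D.card = k + 1 := by
    rw [← hP.line S hSL, ← Set.ncard_coe_finset D, ← Set.ncard_image_of_injective _ hf]
    congr 1
    ext x
    simp only [Set.mem_image, Finset.mem_coe]
    constructor
    · rintro ⟨i, hi, rfl⟩
      exact (hmD i).1 hi
    · intro hx
      obtain ⟨i, hi⟩ := (hfo x).1 (fun h => hoS (h ▸ hx))
      exact ⟨i, (hmD i).2 (hi ▸ hx), hi⟩
  -- the stabiliser is trivial
  have hstab : ∀ h : ZMod (k * (k + 2)), ⇑(σ ^ h.val) '' S = S → h = 0 := by
    intro h hS
    have h1 : D.image (fun d => d + h) = D := by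
      apply Finset.eq_of_subset_of_card_le
      · intro x hx
        obtain ⟨d, hd, rfl⟩ := Finset.mem_image.1 hx
        rw [hmD, hadd, ← hS]
        exact Set.mem_image_of_mem _ ((hmD d).1 hd)
      · rw [Finset.card_image_of_injective _ (add_left_injective h)]
    have h2 : ∑ d ∈ D, d = ∑ d ∈ D, d + (k + 1 : ℕ) * h := by
      conv_lhs => rw [← h1]
      rw [Finset.sum_image (fun a _ b _ hab => add_left_injective h hab),
        Finset.sum_add_distrib, Finset.sum_const, hDc, nsmul_eq_mul]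
    have h3 : ((k + 1 : ℕ) : ZMod (k * (k + 2))) * h = 0 := by
      have := h2
      rwa [left_eq_add] at this
    have h4 : ((k * (k + 2) : ℕ) : ZMod (k * (k + 2))) = 0 := ZMod.natCast_self _
    have h5 : h = (((k + 1 : ℕ) : ZMod (k * (k + 2))) * ((k + 1 : ℕ) : ZMod (k * (k + 2)))
        - ((k * (k + 2) : ℕ) : ZMod (k * (k + 2)))) * h := by
      push_cast
      ring
    rw [h5, h4, sub_zero, mul_assoc, h3, mul_zero]
  have hU : ∀ a ∈ D, ∀ b ∈ D, ∀ c ∈ D, ∀ d ∈ D, a - b = c - d → a ≠ b → a = c ∧ b = d := by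
    intro a ha b hb c hc d hd habcd hab
    have e1 : c = a + (c - a) := by ring
    have e2 : d = b + (c - a) := by linear_combination habcd
    have hcd : c ≠ d := by
      intro h
      rw [h, sub_self, sub_eq_zero] at habcd
      exact hab habcd
    have h1 : f c ∈ ⇑(σ ^ (c - a).val) '' S := by
      rw [e1, hadd]
      have : a + (c - a) - a = c - a := by ring
      rw [this]
      exact Set.mem_image_of_mem _ ((hmD a).1 ha)
    have h2 : f d ∈ ⇑(σ ^ (c - a).val) '' S := by
      rw [e2, hadd]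
      exact Set.mem_image_of_mem _ ((hmD b).1 hb)
    have h3 := huniq (fun h => hcd (hf h)) (hLp (c - a).val S hSL) hSL h1 h2 ((hmD c).1 hc)
      ((hmD d).1 hd)
    have h4 := hstab _ h3
    refine ⟨(sub_eq_zero.1 h4).symm, ?_⟩
    rw [e2, h4, add_zero]
  -- collinearity with `o`
  set C : ZMod (k * (k + 2)) → ZMod (k * (k + 2)) → Prop := fun i j =>
    ∃ T ∈ L, o ∈ T ∧ f i ∈ T ∧ f j ∈ T with hC
  have hCs : ∀ i j, C i j → C j i := by
    rintro i j ⟨T, h1, h2, h3, h4⟩
    exact ⟨T, h1, h2, h4, h3⟩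
  have hCt : ∀ i j l, C i j → C j l → C i l := by
    rintro i j l ⟨T, h1, h2, h3, h4⟩ ⟨T', h1', h2', h3', h4'⟩
    have := huniq (hfne j).symm h1 h1' h2 h4 h2' h3'
    subst this
    exact ⟨T, h1, h2, h3, h4'⟩
  have hCa : ∀ i j g, C i j → C (i + g) (j + g) := by
    rintro i j g ⟨T, h1, h2, h3, h4⟩
    refine ⟨⇑(σ ^ g.val) '' T, hLp _ T h1, ⟨o, h2, hop _⟩, ?_, ?_⟩
    · rw [hadd]
      exact Set.mem_image_of_mem _ h3
    · rw [hadd]
      exact Set.mem_image_of_mem _ h4
  obtain ⟨l, ⟨hl, hol, hxl⟩, -⟩ := hP.join o (f 0) (hfne 0).symm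
  have hC0 : ∀ g, C 0 g ↔ f g ∈ l := by
    intro g
    constructor
    · rintro ⟨T, h1, h2, h3, h4⟩
      rw [huniq (hfne 0).symm hl h1 hol hxl h2 h3]
      exact h4
    · intro h
      exact ⟨l, hl, hol, hxl, h⟩
  let N : AddSubgroup (ZMod (k * (k + 2))) :=
    { carrier := {g | C 0 g}
      zero_mem' := ⟨l, hl, hol, hxl, hxl⟩
      add_mem' := by
        intro a b ha hb
        have h1 := hCa 0 a b ha
        rw [zero_add] at h1
        exact hCt _ _ _ hb h1
      neg_mem' := by
        intro a ha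
        have h1 := hCa 0 a (-a) ha
        rw [zero_add, add_neg_cancel] at h1
        exact hCs _ _ h1 }
  have hNm : ∀ g, g ∈ N ↔ f g ∈ l := fun g => hC0 g
  set NF : Finset (ZMod (k * (k + 2))) := Finset.univ.filter fun g => f g ∈ l with hNF
  have hNFc : NF.card = k := by
    have h1 : (insert o (f '' (NF : Set (ZMod (k * (k + 2)))))) = l := by
      ext x
      simp only [Set.mem_insert_iff, Set.mem_image, Finset.mem_coe, hNF, Finset.mem_filter,
        Finset.mem_univ, true_and]
      constructor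
      · rintro (rfl | ⟨i, hi, rfl⟩)
        · exact hol
        · exact hi
      · intro hx
        by_cases hxo : x = o
        · exact Or.inl hxo
        · obtain ⟨i, hi⟩ := (hfo x).1 hxo
          exact Or.inr ⟨i, hi ▸ hx, hi⟩
    have h2 := hP.line l hl
    rw [← h1, Set.ncard_insert_of_notMem _ (Set.toFinite _), Set.ncard_image_of_injective _ hf,
      Set.ncard_coe_finset] at h2
    · omega
    · rintro ⟨i, _, hi⟩
      exact hfne i hi
  have hNc : Nat.card N = k := by
    refine Eq.trans ?_ hNFc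
    have : (N : Set (ZMod (k * (k + 2)))) = (NF : Set (ZMod (k * (k + 2)))) := by
      ext g
      rw [SetLike.mem_coe, hNm]
      simp [hNF]
    rw [← Set.ncard_coe_finset, ← this]
    rfl
  -- the kernel of the projection
  have hpr : ∀ g : ZMod (k * (k + 2)), pr k g = 0 ↔ k + 2 ∣ g.val := by
    intro g
    have h1 : pr k g = ((g.val : ℕ) : ZMod (k + 2)) := by
      conv_lhs => rw [← ZMod.natCast_zmod_val g]
      rw [map_natCast]
    rw [h1, ZMod.natCast_eq_zero_iff]
  set KF : Finset (ZMod (k * (k + 2))) := Finset.univ.filter fun g => pr k g = 0 with hKF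
  have hKc : KF.card ≤ k := by
    have h1 : KF ⊆ (Finset.range k).image fun t => (((k + 2) * t : ℕ) : ZMod (k * (k + 2))) := by
      intro g hg
      have h2 : pr k g = 0 := (Finset.mem_filter.1 hg).2
      obtain ⟨t, ht⟩ := (hpr g).1 h2
      refine Finset.mem_image.2 ⟨t, ?_, ?_⟩
      · rw [Finset.mem_range]
        have h3 := ZMod.val_lt g
        rw [ht] at h3
        nlinarith
      · rw [← ht, ZMod.natCast_zmod_val]
    refine (Finset.card_le_card h1).trans ?_
    exact Finset.card_image_le.trans (by simp)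
  have hsub : NF ⊆ KF := by
    intro g hg
    have h1 : g ∈ N := (hNm g).2 (Finset.mem_filter.1 hg).2
    have h2 : k • g = 0 := by
      have h3 : Nat.card N • (⟨g, h1⟩ : N) = 0 := card_nsmul_eq_zero'
      rw [hNc] at h3
      have h4 := congrArg (fun x : N => (x : ZMod (k * (k + 2)))) h3
      simpa using h4
    rw [hKF, Finset.mem_filter]
    refine ⟨Finset.mem_univ _, (hpr g).2 ?_⟩
    have h5 : ((k * g.val : ℕ) : ZMod (k * (k + 2))) = 0 := by
      rw [Nat.cast_mul, ZMod.natCast_zmod_val, ← nsmul_eq_mul, h2]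
    rw [ZMod.natCast_eq_zero_iff] at h5
    exact Nat.dvd_of_mul_dvd_mul_left (by omega) h5
  have hNK : NF = KF := Finset.eq_of_subset_of_card_le hsub (by rw [hNFc]; exact hKc)
  have hKcard : KF.card = k := by rw [← hNK, hNFc]
  have hI : ∀ a ∈ D, ∀ b ∈ D, pr k a = pr k b → a = b := by
    intro a ha b hb hab
    by_contra hne
    have h1 : b - a ∈ KF := by
      rw [hKF, Finset.mem_filter]
      exact ⟨Finset.mem_univ _, by rw [map_sub, hab, sub_self]⟩
    rw [← hNK, hNF, Finset.mem_filter] at h1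
    have h2 := hCa 0 (b - a) a ((hC0 _).2 h1.2)
    rw [zero_add, sub_add_cancel] at h2
    obtain ⟨T, hT, hoT, haT, hbT⟩ := h2
    have h3 := huniq (fun h => hne (hf h)) hSL hT ((hmD a).1 ha) ((hmD b).1 hb) haT hbT
    exact hoS (h3 ▸ hoT)
  refine ⟨D, hDc, ?_, hU, hI⟩
  -- every element outside the kernel is a difference
  have hinj : Set.InjOn (fun q : ZMod (k * (k + 2)) × ZMod (k * (k + 2)) => q.1 - q.2)
      (D.offDiag : Set (ZMod (k * (k + 2)) × ZMod (k * (k + 2)))) := by
    intro q hq q' hq' h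
    rw [Finset.mem_coe, Finset.mem_offDiag] at hq hq'
    obtain ⟨h1, h2⟩ := hU q.1 hq.1 q.2 hq.2.1 q'.1 hq'.1 q'.2 hq'.2.1 h hq.2.2
    exact Prod.ext h1 h2
  have himg : D.offDiag.image (fun q => q.1 - q.2) = KFᶜ := by
    apply Finset.eq_of_subset_of_card_le
    · intro g hg
      obtain ⟨q, hq, rfl⟩ := Finset.mem_image.1 hg
      rw [Finset.mem_offDiag] at hq
      rw [Finset.mem_compl, hKF, Finset.mem_filter]
      rintro ⟨-, h1⟩
      rw [map_sub, sub_eq_zero] at h1
      exact hq.2.2 (hI _ hq.1 _ hq.2.1 h1)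
    · rw [Finset.card_image_of_injOn hinj, Finset.offDiag_card, hDc, Finset.card_compl, hKcard,
        ZMod.card]
      have : k * (k + 2) - k = (k + 1) * (k + 1) - (k + 1) := by
        have e1 : k * (k + 2) = k * (k + 1) + k := by ring
        have e2 : (k + 1) * (k + 1) = k * (k + 1) + (k + 1) := by ring
        omega
      omega
  intro g hg
  have h1 : g ∈ KFᶜ := by
    rw [Finset.mem_compl, hKF, Finset.mem_filter]
    rintro ⟨-, h⟩
    exact hg h
  rw [← himg, Finset.mem_image] at h1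
  obtain ⟨q, hq, hqg⟩ := h1
  rw [Finset.mem_offDiag] at hq
  exact ⟨q.1, hq.1, q.2, hq.2.1, hqg⟩

end Pool.Agent.CAP.H39
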